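import Pool.Agent.H595.GT.GT1

/-!
# The density of the scales with small values of integer polynomials of all degrees
-/

set_option autoImplicit false

namespace Pool.Agent.H595.GT

open Polynomial MeasureTheory Filter Topology Set Pool.Agent.H595.Dens Pool.Agent.R523.Gel Pool.Agent.H595.Alg

/-- a polynomial of degree at most `T` with coefficients at most `exp T` and a value at most `exp (-T ^ w)` -/
def NearPoly (θ : ℂ) (w T : ℝ) : Prop := ∃ P : ℤ[X], P ≠ 0 ∧ (P.natDegree : ℝ) ≤ T ∧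
  (∀ i, |(P.coeff i : ℝ)| ≤ Real.exp T) ∧ ‖aeval θ P‖ ≤ Real.exp (-T ^ w)

/-- the logarithms of the scales -/
def gScales (θ : ℂ) (w : ℝ) : Set ℝ := {y | NearPoly θ w (Real.exp y)}

/-- irreducible polynomials -/
def IP : Type := {P : ℤ[X] // Irreducible P ∧ 0 < P.natDegree}

noncomputable def vX (P : IP) : ℝ := Real.log (size P.1)

noncomputable def vL (θ : ℂ) (P : IP) : ℝ := Real.log (max 1 (-Real.log ‖aeval θ P.1‖ / size P.1))

theorem one_le_size (P : IP) : 1 ≤ size P.1 := by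
  refine le_trans ?_ (natDegree_le_size P.2.1.ne_zero)
  exact_mod_cast P.2.2

theorem exp_vX (P : IP) : Real.exp (vX P) = size P.1 := by
  rw [vX, Real.exp_log]
  have := one_le_size P
  linarith

theorem vX_nonneg (P : IP) : 0 ≤ vX P := Real.log_nonneg (one_le_size P)

theorem vL_nonneg (θ : ℂ) (P : IP) : 0 ≤ vL θ P := Real.log_nonneg (le_max_left _ _)

theorem finite_vX (B : ℝ) : {P : IP | vX P ≤ B}.Finite := by
  obtain ⟨n, hn⟩ := exists_nat_ge (Real.exp B)
  have h1 := finite_mahlerMeasure_le n ⟨Real.exp (Real.exp B), (Real.exp_pos _).le⟩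
  refine Set.Finite.of_finite_image (f := fun P : IP => P.1) (h1.subset ?_) (fun A _ B _ h => Subtype.ext h)
  rintro _ ⟨P, hP, rfl⟩
  have h2 : size P.1 ≤ Real.exp B := by
    rw [← exp_vX]
    exact Real.exp_le_exp.2 hP
  constructor
  · have h3 := (natDegree_le_size P.2.1.ne_zero).trans (h2.trans hn)
    exact_mod_cast h3
  · show M1 P.1 ≤ Real.exp (Real.exp B)
    have h4 := one_le_M1 P.2.1.ne_zero
    rw [← Real.exp_log (show 0 < M1 P.1 by linarith)]
    exact Real.exp_le_exp.2 (logM1_le_size.trans h2)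

/-- the number is transcendental -/
def Tr (θ : ℂ) : Prop := ∀ P : ℤ[X], P ≠ 0 → aeval θ P ≠ 0

theorem bound {θ : ℂ} (hθ : Tr θ) {ε : ℝ} (hε : 0 < ε) : ∃ C : ℝ, ∀ u v : IP, vX u < vX v → vL θ u < vL θ v →
    vL θ u ≤ (1 + ε) * vX v + (0 + ε) * vX u + C := by
  obtain ⟨C, hC1, hC⟩ := two θ
  have hlC : 0 ≤ Real.log C := Real.log_nonneg hC1
  refine ⟨Real.log C + (2 * ε + |Real.log ε|), fun u v h1 h2 => ?_⟩
  have hXu := vX_nonneg u
  have hXv := vX_nonneg v
  have hsu := one_le_size u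
  have hsv := one_le_size v
  have hv0 := vL_nonneg θ u
  rcases le_or_gt (-Real.log ‖aeval θ u.1‖ / size u.1) 1 with h3 | h3
  · have h4 : vL θ u = 0 := by rw [vL, max_eq_left h3, Real.log_one]
    rw [h4]
    have := abs_nonneg (Real.log ε)
    positivity
  have hev : vL θ u = Real.log (-Real.log ‖aeval θ u.1‖ / size u.1) := by rw [vL, max_eq_right h3.le]
  -- the value at `v` is smaller
  have h4 : -Real.log ‖aeval θ u.1‖ / size u.1 < -Real.log ‖aeval θ v.1‖ / size v.1 := by
    by_contra hcon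
    push Not at hcon
    have h5 : vL θ v ≤ vL θ u := by
      rw [hev, vL]
      exact Real.log_le_log (by positivity) (max_le h3.le hcon)
    linarith
  have hsuv : size u.1 < size v.1 := by
    rw [← exp_vX, ← exp_vX]
    exact Real.exp_lt_exp.2 h1
  have hu0 : 0 < ‖aeval θ u.1‖ := norm_pos_iff.2 (hθ u.1 u.2.1.ne_zero)
  have hv0' : 0 < ‖aeval θ v.1‖ := norm_pos_iff.2 (hθ v.1 v.2.1.ne_zero)
  have h5 : ‖aeval θ v.1‖ ≤ ‖aeval θ u.1‖ := by
    rw [← Real.log_le_log_iff hv0' hu0]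
    rw [lt_div_iff₀ (by linarith)] at h3
    rw [div_lt_div_iff₀ (by linarith) (by linarith)] at h4
    have h6 : -Real.log ‖aeval θ u.1‖ * size u.1 ≤ -Real.log ‖aeval θ u.1‖ * size v.1 :=
      mul_le_mul_of_nonneg_left hsuv.le (by linarith)
    have h7 : -Real.log ‖aeval θ u.1‖ * size u.1 < -Real.log ‖aeval θ v.1‖ * size u.1 := lt_of_le_of_lt h6 h4
    have h8 := lt_of_mul_lt_mul_right h7 (by linarith)
    linarith
  have h6 := hC u.1 v.1 u.2.1 v.2.1 u.2.2 v.2.2 hsuv.ne _ hu0 le_rfl h5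
  have h7 : Real.log (size u.1 + size v.1) ≤ 1 + (vX u + vX v) := by
    have h8 : size u.1 + size v.1 ≤ 2 * (size u.1 * size v.1) := by nlinarith
    have h9 := Real.log_le_log (by linarith) h8
    rw [Real.log_mul (by norm_num) (by positivity), Real.log_mul (by linarith) (by linarith)] at h9
    have h10 : Real.log 2 ≤ 1 := by
      have := Real.log_two_lt_d9
      linarith
    rw [vX, vX]
    linarith
  obtain ⟨l, hl⟩ : ∃ l : ℝ, l = 2 + (vX u + vX v) := ⟨_, rfl⟩
  have hl0 : 0 < l := by rw [hl]; linarith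
  have h8 : -Real.log ‖aeval θ u.1‖ / size u.1 ≤ C * size v.1 * l := by
    rw [div_le_iff₀ (by linarith)]
    calc -Real.log ‖aeval θ u.1‖ ≤ C * (size u.1 * size v.1) * (1 + Real.log (size u.1 + size v.1)) := h6
      _ ≤ C * (size u.1 * size v.1) * l := by
          apply mul_le_mul_of_nonneg_left _ (by positivity)
          linarith
      _ = _ := by ring
  have h9 := Real.log_le_log (by linarith) h8
  rw [Real.log_mul (by positivity) hl0.ne', Real.log_mul (by positivity) (by linarith)] at h9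
  have h10 : Real.log l ≤ ε * l - Real.log ε := by
    have h11 := Real.log_le_sub_one_of_pos (mul_pos hε hl0)
    rw [Real.log_mul hε.ne' hl0.ne'] at h11
    linarith
  have h11 : Real.log (size v.1) = vX v := rfl
  rw [h11] at h9
  rw [hev]
  have h12 := neg_abs_le (Real.log ε)
  have h13 : ε * l = 2 * ε + ε * vX u + ε * vX v := by rw [hl]; ring
  linarith

theorem size_le {P : ℤ[X]} {T : ℝ} (hP : P ≠ 0) (hT : 1 ≤ T) (h1 : (P.natDegree : ℝ) ≤ T)
    (h2 : ∀ i, |(P.coeff i : ℝ)| ≤ Real.exp T) : size P ≤ 3 * T := by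
  have h3 := one_le_M1 hP
  have h4 := M1_le P h2
  have h5 : M1 P ≤ (T + 1) * Real.exp T := by
    refine h4.trans ?_
    have := Real.exp_pos T
    nlinarith
  have h6 := Real.log_le_log (by linarith) h5
  rw [Real.log_mul (by linarith) (Real.exp_pos T).ne', Real.log_exp] at h6
  have h7 := Real.log_le_sub_one_of_pos (show 0 < T + 1 by linarith)
  rw [size]
  linarith

theorem to_irr {θ : ℂ} (hθ : Tr θ) {w w' : ℝ} (hw' : 0 < w') (hw : w' < w - 1) :
    lowerDensity (gScales θ w) ≤ lowerDensity (goodScales vX (vL θ) w') := by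
  have hl3 : 0 ≤ Real.log 3 := Real.log_nonneg (by norm_num)
  have hδ : 0 < w - 1 - w' := by linarith
  refine lowerDensity_shift (s := Real.log 3) (B := max 0 ((Real.log 4 + w' * Real.log 3) / (w - 1 - w'))) hl3 ?_
  rintro y ⟨P, hP, h1, h2, h3⟩ hy
  have hy0 : 0 ≤ y := (le_max_left _ _).trans hy
  have hy1 : (Real.log 4 + w' * Real.log 3) / (w - 1 - w') ≤ y := (le_max_right _ _).trans hy
  rw [div_le_iff₀ hδ] at hy1
  obtain ⟨T, hT⟩ : ∃ T : ℝ, T = Real.exp y := ⟨_, rfl⟩
  have hT1 : 1 ≤ T := by rw [hT]; exact Real.one_le_exp hy0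
  have hT0 : 0 < T := by linarith
  rw [← hT] at h1 h2 h3
  have hs := size_le hP hT1 h1 h2
  obtain ⟨lam, hlam⟩ : ∃ lam : ℝ, lam = T ^ (w - 1) / 4 := ⟨_, rfl⟩
  have hTw : 0 < T ^ (w - 1) := Real.rpow_pos_of_pos hT0 _
  have hlam0 : 0 < lam := by rw [hlam]; positivity
  have hTT : T ^ w = T ^ (w - 1) * T := by
    rw [Real.rpow_sub_one hT0.ne', div_mul_cancel₀ _ hT0.ne']
  obtain ⟨Q, hQ, hQP, hQ0, h4⟩ : ∃ Q : ℤ[X], Irreducible Q ∧ Q ∣ P ∧ 0 < Q.natDegree ∧
      ‖aeval θ Q‖ < Real.exp (-(lam * size Q)) := by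
    by_contra hcon
    push Not at hcon
    have h5 := value_ge θ hlam0.le P hP hcon
    have h6 := h5.trans h3
    rw [Real.exp_le_exp] at h6
    have h7 : lam * size P ≤ lam * (3 * T) := mul_le_mul_of_nonneg_left hs hlam0.le
    have h8 : lam * (3 * T) = 3 / 4 * T ^ w := by rw [hlam, hTT]; ring
    have h9 : 0 < T ^ w := Real.rpow_pos_of_pos hT0 _
    linarith
  obtain ⟨G, hG⟩ := hQP
  have hG0 : G ≠ 0 := by
    rintro rfl
    rw [mul_zero] at hG
    exact hP hG
  have hsQ : size Q ≤ 3 * T := by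
    rw [hG, size_mul hQ.ne_zero hG0] at hs
    linarith [size_nonneg hG0]
  have hQ1 := one_le_size ⟨Q, hQ, hQ0⟩
  simp only at hQ1
  refine ⟨⟨Q, hQ, hQ0⟩, ?_, ?_⟩
  · show Real.log (size Q) ≤ y + Real.log 3
    have h5 := Real.log_le_log (by linarith) hsQ
    rw [Real.log_mul (by norm_num) hT0.ne', hT, Real.log_exp] at h5
    linarith
  · show w' * (y + Real.log 3) ≤ Real.log (max 1 (-Real.log ‖aeval θ Q‖ / size Q))
    have h5 : Real.log lam = (w - 1) * y - Real.log 4 := by
      rw [hlam, Real.log_div hTw.ne' (by norm_num), Real.log_rpow hT0, hT, Real.log_exp]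
    have h6 := Real.log_lt_log (norm_pos_iff.2 (hθ Q hQ.ne_zero)) h4
    rw [Real.log_exp] at h6
    have h7 : lam ≤ -Real.log ‖aeval θ Q‖ / size Q := by
      rw [le_div_iff₀ (by linarith)]
      linarith
    have h8 := Real.log_le_log hlam0 (h7.trans (le_max_right 1 _))
    rw [h5] at h8
    linarith

/-- **The upper bound.** -/
theorem upper {θ : ℂ} (hθ : Tr θ) {w : ℝ} (hw : 2 < w) : lowerDensity (gScales θ w) ≤ 1 / (w - 1) := by
  have main : ∀ w', 1 < w' → w' < w - 1 → lowerDensity (gScales θ w) * w' ≤ 1 := by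
    intro w' h1 h2
    have h3 := to_irr hθ (show 0 < w' by linarith) h2
    have h4 := dens_simple (X := vX) (ℓ := vL θ) (w := w') (A := 1) (B := 0) (by linarith) zero_le_one
      (by linarith) finite_vX (fun ε hε => by
        obtain ⟨C, hC⟩ := bound hθ hε
        exact ⟨C, fun u v h1 h2 _ _ => hC u v h1 h2⟩)
    have h5 := h3.trans h4
    rwa [le_div_iff₀ (by linarith)] at h5
  rw [le_div_iff₀ (by linarith)]
  by_contra hcon
  push Not at hcon
  have h6 := lowerDensity_nonneg (gScales θ w)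
  have h7 : 0 < lowerDensity (gScales θ w) := by
    rcases h6.eq_or_lt with h8 | h8
    · rw [← h8, zero_mul] at hcon
      linarith
    · exact h8
  obtain ⟨w', h8, h9⟩ := exists_between (show max 1 (1 / lowerDensity (gScales θ w)) < w - 1 by
      rw [max_lt_iff]
      exact ⟨by linarith, by rw [div_lt_iff₀' h7]; exact hcon⟩)
  rw [max_lt_iff] at h8
  have h10 := main w' h8.1 h9
  have h11 := h8.2
  rw [div_lt_iff₀' h7] at h11
  linarith

/-- all large scales -/
theorem density_one {S : Set ℝ} {B : ℝ} (hB0 : 0 ≤ B) (hmem : ∀ x, B ≤ x → x ∈ S) : lowerDensity S = 1 := by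
  apply le_antisymm
  · refine lowerDensity_le (x := fun n : ℕ => (n : ℝ)) tendsto_natCast_atTop_atTop ?_
    intro η hη N
    refine ⟨N, le_rfl, ?_⟩
    refine (vol_le _ (Nat.cast_nonneg N)).trans ?_
    have : (0 : ℝ) ≤ N := Nat.cast_nonneg N
    nlinarith
  · apply le_lowerDensity
    intro η hη
    refine ⟨max B (B / η), fun T hT => ?_⟩
    have h1 : B ≤ T := (le_max_left _ _).trans hT
    have h2 : B / η ≤ T := (le_max_right _ _).trans hT
    rw [div_le_iff₀' hη] at h2
    have h3 := meas_lower (S := S) hB0 h1 (fun y hy => hmem y hy.1)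
    have h4 : 0 ≤ (volume (S ∩ Icc 0 B)).toReal := ENNReal.toReal_nonneg
    linarith

/-- an algebraic number -/
theorem alg_one {θ : ℂ} (hθ : ¬ Tr θ) (w : ℝ) : lowerDensity (gScales θ w) = 1 := by
  rw [Tr] at hθ
  push Not at hθ
  obtain ⟨P, hP, h0⟩ := hθ
  obtain ⟨B, hB⟩ : ∃ B : ℝ, B = max (P.natDegree : ℝ) (Real.log (hgt P)) := ⟨_, rfl⟩
  have hH1 : (1 : ℝ) ≤ hgt P := by exact_mod_cast one_le_hgt hP
  refine density_one (B := max 0 (Real.log (max 1 B))) (le_max_left _ _) (fun y hy => ?_)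
  have h1 : Real.log (max 1 B) ≤ y := (le_max_right _ _).trans hy
  have h2 : max 1 B ≤ Real.exp y := by
    rw [← Real.exp_log (lt_of_lt_of_le one_pos (le_max_left 1 B))]
    exact Real.exp_le_exp.2 h1
  have h3 : B ≤ Real.exp y := (le_max_right _ _).trans h2
  refine ⟨P, hP, ?_, fun i => (coeff_le_hgt P i).trans ?_, ?_⟩
  · refine le_trans ?_ h3
    rw [hB]
    exact le_max_left _ _
  · rw [← Real.exp_log (by linarith : (0 : ℝ) < hgt P)]
    apply Real.exp_le_exp.2
    refine le_trans ?_ h3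
    rw [hB]
    exact le_max_right _ _
  · rw [h0, norm_zero]
    positivity

end Pool.Agent.H595.GT
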