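import Pool.Agent.H595.GT.GT2

/-!
# Transcendental numbers with the largest density
-/

set_option autoImplicit false

namespace Pool.Agent.H595.GT

open Polynomial MeasureTheory Filter Topology Set Pool.Agent.H595.Dens Pool.Agent.R523.Gel Pool.Agent.H595.Alg

/-- the size of a rational number -/
noncomputable def ra (s : ℤ × ℕ) : ℝ := Real.log (|(s.1 : ℝ)| + s.2) + 1

theorem one_le_ra {s : ℤ × ℕ} (h : 1 ≤ s.2) : 1 ≤ ra s := by
  have h1 : (1 : ℝ) ≤ s.2 := by exact_mod_cast h
  have h2 := abs_nonneg (s.1 : ℝ)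
  have := Real.log_nonneg (show (1 : ℝ) ≤ |(s.1 : ℝ)| + s.2 by linarith)
  rw [ra]
  linarith

/-- the relation between two consecutive rational numbers -/
def Rel (K : ℝ) (n : ℕ) (s s' : ℤ × ℕ) : Prop := ∃ r : ℕ, 4 ≤ r ∧ K ≤ r ∧ s'.1 = s.1 * r + 1 ∧ s'.2 = s.2 * r ∧
  ra s ^ (n + 1) ≤ Real.log r ∧ 4 * ra s ≤ Real.log r

theorem exists_rel (K : ℝ) (n : ℕ) (s : ℤ × ℕ) (hs : 1 ≤ s.2) : ∃ s' : ℤ × ℕ, 1 ≤ s'.2 ∧ Rel K n s s' := by
  obtain ⟨r, hr⟩ := exists_nat_ge (max (max 4 K) (max (Real.exp (ra s ^ (n + 1))) (Real.exp (4 * ra s))))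
  have h1 : (4 : ℝ) ≤ r := ((le_max_left _ _).trans (le_max_left _ _)).trans hr
  have h2 : K ≤ r := ((le_max_right _ _).trans (le_max_left _ _)).trans hr
  have h3 : Real.exp (ra s ^ (n + 1)) ≤ r := ((le_max_left _ _).trans (le_max_right _ _)).trans hr
  have h4 : Real.exp (4 * ra s) ≤ r := ((le_max_right _ _).trans (le_max_right _ _)).trans hr
  have h1' : 4 ≤ r := by exact_mod_cast h1
  refine ⟨(s.1 * r + 1, s.2 * r), ?_, r, h1', h2, rfl, rfl, ?_, ?_⟩
  · exact Nat.one_le_iff_ne_zero.2 (Nat.mul_ne_zero (by omega) (by omega))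
  · rw [Real.le_log_iff_exp_le (by linarith)]
    exact h3
  · rw [Real.le_log_iff_exp_le (by linarith)]
    exact h4

theorem Rel.size {K : ℝ} {n : ℕ} {s s' : ℤ × ℕ} (h : Rel K n s s') (hs : 1 ≤ s.2) :
    ra s' ≤ Real.log (s'.2 / s.2 : ℝ) + ra s + 1 ∧ Real.log (s'.2 / s.2 : ℝ) ≤ ra s' := by
  obtain ⟨r, h1, -, h3, h4, -, -⟩ := h
  have hs' : (1 : ℝ) ≤ s.2 := by exact_mod_cast hs
  have hr : (4 : ℝ) ≤ r := by exact_mod_cast h1
  have e1 : (s'.2 : ℝ) / s.2 = r := by
    rw [h4]
    push_cast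
    field_simp
  have ha := abs_nonneg (s.1 : ℝ)
  rw [e1]
  constructor
  · have h5 : |(s'.1 : ℝ)| + s'.2 ≤ 2 * r * (|(s.1 : ℝ)| + s.2) := by
      rw [h3, h4]
      push_cast
      have h6 := abs_add_le ((s.1 : ℝ) * r) 1
      rw [abs_mul, abs_one, abs_of_pos (show (0 : ℝ) < r by linarith)] at h6
      nlinarith
    have h6 : (0 : ℝ) < |(s'.1 : ℝ)| + s'.2 := by
      have : (0 : ℝ) < s'.2 := by
        rw [h4]
        push_cast
        positivity
      have := abs_nonneg (s'.1 : ℝ)
      linarith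
    have h7 := Real.log_le_log h6 h5
    rw [Real.log_mul (by positivity) (by linarith), Real.log_mul (by norm_num) (by linarith)] at h7
    have h8 : Real.log 2 ≤ 1 := by
      have := Real.log_two_lt_d9
      linarith
    rw [ra, ra]
    linarith
  · have h5 : (r : ℝ) ≤ |(s'.1 : ℝ)| + s'.2 := by
      rw [h4]
      push_cast
      have := abs_nonneg (s'.1 : ℝ)
      nlinarith
    have h6 := Real.log_le_log (by linarith) h5
    rw [ra]
    linarith

/-- the powers of a linear polynomial -/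
theorem coeff_pow_le (q p : ℤ) (k : ℕ) : ∀ i, |(((C q * X - C p) ^ k : ℤ[X]).coeff i : ℝ)| ≤ (|(p : ℝ)| + |(q : ℝ)|) ^ k := by
  induction k with
  | zero =>
    intro i
    rw [pow_zero, pow_zero, coeff_one]
    split_ifs <;> simp
  | succ k ih =>
    intro i
    have e1 : ((C q * X - C p) ^ (k + 1) : ℤ[X]) = C q * ((C q * X - C p) ^ k * X) - C p * (C q * X - C p) ^ k := by
      ring
    rw [e1, coeff_sub, coeff_C_mul, coeff_C_mul]
    have hp := abs_nonneg (p : ℝ)
    have hq := abs_nonneg (q : ℝ)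
    have h1 : |(((C q * X - C p) ^ k * X : ℤ[X]).coeff i : ℝ)| ≤ (|(p : ℝ)| + |(q : ℝ)|) ^ k := by
      rcases i with _ | i
      · rw [coeff_mul_X_zero]
        simp only [Int.cast_zero, abs_zero]
        positivity
      · rw [coeff_mul_X]
        exact ih i
    have h2 := ih i
    push_cast
    calc |(q : ℝ) * (((C q * X - C p) ^ k * X : ℤ[X]).coeff i : ℝ) - p * (((C q * X - C p) ^ k : ℤ[X]).coeff i : ℝ)| ≤
          |(q : ℝ) * (((C q * X - C p) ^ k * X : ℤ[X]).coeff i : ℝ)| +
          |(p : ℝ) * (((C q * X - C p) ^ k : ℤ[X]).coeff i : ℝ)| := abs_sub _ _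
      _ ≤ |(q : ℝ)| * (|(p : ℝ)| + |(q : ℝ)|) ^ k + |(p : ℝ)| * (|(p : ℝ)| + |(q : ℝ)|) ^ k := by
          rw [abs_mul, abs_mul]
          gcongr
      _ = _ := by ring

/-- the scales which belong to a rational number -/
theorem mem_scales {s : ℤ × ℕ} (hs : 1 ≤ s.2) {t w y l : ℝ} (hl : 0 < l) (hw : 1 < w)
    (ht : |(s.2 : ℝ) * t - s.1| ≤ Real.exp (-l)) (h1 : Real.log (ra s) ≤ y)
    (h2 : y < (Real.log l - Real.log 2 - Real.log (ra s)) / (w - 1)) : y ∈ gScales t w := by
  have ha := one_le_ra hs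
  have hs' : (1 : ℝ) ≤ s.2 := by exact_mod_cast hs
  have hp := abs_nonneg (s.1 : ℝ)
  obtain ⟨T, hT⟩ : ∃ T : ℝ, T = Real.exp y := ⟨_, rfl⟩
  have hT0 : 0 < T := by rw [hT]; exact Real.exp_pos _
  have hTa : ra s ≤ T := by
    rw [← Real.exp_log (show 0 < ra s by linarith), hT]
    exact Real.exp_le_exp.2 h1
  obtain ⟨k, hk⟩ : ∃ k : ℕ, k = ⌊T / ra s⌋₊ := ⟨_, rfl⟩
  have hTa1 : 1 ≤ T / ra s := by rwa [one_le_div (by linarith)]
  have hk1 : (k : ℝ) ≤ T / ra s := by rw [hk]; exact Nat.floor_le (by positivity)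
  have hk2 : T / ra s < k + 1 := by rw [hk]; exact Nat.lt_floor_add_one _
  have hk3 : (1 : ℝ) ≤ k := by
    have : 1 ≤ k := by
      rw [hk, Nat.one_le_floor_iff]
      exact hTa1
    exact_mod_cast this
  have hk4 : T / (2 * ra s) ≤ k := by
    have : T / (2 * ra s) = (T / ra s) / 2 := by field_simp
    rw [this]
    linarith
  have hk5 : (k : ℝ) * ra s ≤ T := by rwa [le_div_iff₀ (by linarith)] at hk1
  have hq0 : (s.2 : ℤ) ≠ 0 := by
    have : (s.2 : ℤ) ≠ 0 := by exact_mod_cast (show s.2 ≠ 0 by omega)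
    exact this
  have hlin : (C (s.2 : ℤ) * X - C s.1 : ℤ[X]) ≠ 0 := by
    intro h0
    have h3 := congrArg (fun P : ℤ[X] => P.coeff 1) h0
    simp only [coeff_sub, coeff_C_mul, coeff_X_one, coeff_zero, mul_one] at h3
    rw [coeff_C_of_ne_zero one_ne_zero, sub_zero] at h3
    exact hq0 h3
  refine ⟨(C (s.2 : ℤ) * X - C s.1) ^ k, pow_ne_zero _ hlin, ?_, fun i => ?_, ?_⟩
  · rw [← hT]
    have h3 : ((C (s.2 : ℤ) * X - C s.1) ^ k : ℤ[X]).natDegree ≤ k := by
      refine natDegree_pow_le.trans ?_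
      have h4 : (C (s.2 : ℤ) * X - C s.1 : ℤ[X]).natDegree ≤ 1 := by
        refine (natDegree_sub_le _ _).trans (max_le ?_ ?_)
        · exact (natDegree_C_mul_le _ _).trans natDegree_X_le
        · rw [natDegree_C]
          exact Nat.zero_le _
      calc k * (C (s.2 : ℤ) * X - C s.1 : ℤ[X]).natDegree ≤ k * 1 := Nat.mul_le_mul_left _ h4
        _ = k := mul_one _
    have h5 : (((C (s.2 : ℤ) * X - C s.1) ^ k : ℤ[X]).natDegree : ℝ) ≤ k := by exact_mod_cast h3
    have h6 : (k : ℝ) ≤ k * ra s := by nlinarith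
    linarith
  · rw [← hT]
    refine (coeff_pow_le (s.2 : ℤ) s.1 k i).trans ?_
    have e1 : |((s.2 : ℤ) : ℝ)| = s.2 := by
      rw [Int.cast_natCast, Nat.abs_cast]
    rw [e1]
    have h3 : 0 < |(s.1 : ℝ)| + s.2 := by linarith
    rw [← Real.exp_log h3, ← Real.exp_nat_mul]
    apply Real.exp_le_exp.2
    have h4 : Real.log (|(s.1 : ℝ)| + s.2) ≤ ra s := by rw [ra]; linarith
    calc (k : ℝ) * Real.log (|(s.1 : ℝ)| + s.2) ≤ k * ra s := mul_le_mul_of_nonneg_left h4 (by linarith)
      _ ≤ T := hk5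
  · rw [← hT, map_pow, norm_pow]
    have e1 : ‖aeval (t : ℂ) (C (s.2 : ℤ) * X - C s.1 : ℤ[X])‖ = |(s.2 : ℝ) * t - s.1| := by
      rw [cast_aeval, Complex.norm_real, Real.norm_eq_abs, map_sub, map_mul, aeval_C, aeval_X, aeval_C]
      rfl
    rw [e1]
    calc |(s.2 : ℝ) * t - s.1| ^ k ≤ Real.exp (-l) ^ k := pow_le_pow_left₀ (abs_nonneg _) ht k
      _ = Real.exp (-(k * l)) := by
          rw [← Real.exp_nat_mul]
          congr 1
          ring
      _ ≤ Real.exp (-T ^ w) := by
          apply Real.exp_le_exp.2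
          rw [neg_le_neg_iff]
          have h3 : T ^ w = T ^ (w - 1) * T := by
            rw [Real.rpow_sub_one hT0.ne', div_mul_cancel₀ _ hT0.ne']
          have h4 : T ^ (w - 1) ≤ l / (2 * ra s) := by
            rw [← Real.log_le_log_iff (Real.rpow_pos_of_pos hT0 _) (by positivity), Real.log_rpow hT0, hT,
              Real.log_exp, Real.log_div hl.ne' (by positivity), Real.log_mul (by norm_num) (by linarith)]
            rw [lt_div_iff₀ (by linarith)] at h2
            linarith
          rw [h3]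
          calc T ^ (w - 1) * T ≤ l / (2 * ra s) * T := mul_le_mul_of_nonneg_right h4 hT0.le
            _ = T / (2 * ra s) * l := by ring
            _ ≤ k * l := mul_le_mul_of_nonneg_right hk4 hl.le

/-- **Examples.** -/
theorem exists_tr {α β : ℝ} (hab : α < β) : ∃ t : ℝ, α < t ∧ t < β ∧ Transcendental ℤ t ∧
    ∀ w : ℝ, 2 ≤ w → 1 / (w - 1) ≤ lowerDensity (gScales t w) := by
  -- the first rational number
  obtain ⟨r₀, hr₀1, hr₀2⟩ := exists_rat_btwn (show (3 * α + β) / 4 < (α + 3 * β) / 4 by linarith)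
  obtain ⟨s, hs0, hs1, hs2⟩ := exists_chain (fun s : ℤ × ℕ => 1 ≤ s.2) (Rel (8 / (β - α))) (r₀.num, r₀.den)
    r₀.pos (fun n s hs => exists_rel (8 / (β - α)) n s hs)
  choose r hr1 hr2 hr3 hr4 hr5 hr6 using hs2
  have hq : ∀ n, (1 : ℝ) ≤ (s n).2 := fun n => by exact_mod_cast hs1 n
  have hr : ∀ n, (4 : ℝ) ≤ r n := fun n => by exact_mod_cast hr1 n
  obtain ⟨T, hT⟩ : ∃ T : ℕ → ℝ, T = fun n => ((s n).1 : ℝ) / (s n).2 := ⟨_, rfl⟩
  have hTT : ∀ n, T (n + 1) - T n = 1 / ((s n).2 * r n) := by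
    intro n
    have h1 := hq n
    have h2 := hr n
    rw [hT]
    simp only
    rw [hr3, hr4]
    push_cast
    field_simp
    ring
  have habs : ∀ n, |T (n + 1) - T n| = 1 / ((s n).2 * r n) := by
    intro n
    rw [hTT, abs_of_nonneg]
    positivity
  obtain ⟨t, ht⟩ := exists_limit (T := T) (fun n => by
    rw [habs]
    have h1 := hq n
    have h2 := hr n
    positivity) (fun n => by
    rw [show n + 2 = n + 1 + 1 from rfl, habs, habs, hr4]
    have h1 := hq n
    have h2 := hr n
    have h3 := hr (n + 1)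
    push_cast
    rw [div_div]
    apply one_div_le_one_div_of_le (by positivity)
    have h4 : 0 < ((s n).2 : ℝ) * r n := by positivity
    nlinarith)
  have hlin : ∀ n, |((s n).2 : ℝ) * t - (s n).1| ≤ Real.exp (-(Real.log (r n) - 1)) := by
    intro n
    obtain ⟨-, h1⟩ := ht n
    rw [habs] at h1
    have h2 := hq n
    have h3 := hr n
    have e1 : ((s n).2 : ℝ) * t - (s n).1 = (s n).2 * (t - T n) := by
      rw [hT]
      field_simp
    have e2 : Real.exp (-(Real.log (r n) - 1)) = Real.exp 1 / r n := by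
      rw [show -(Real.log (r n) - 1) = 1 - Real.log (r n) by ring, Real.exp_sub, Real.exp_log (by linarith)]
    rw [e1, e2, abs_mul, abs_of_pos (show (0 : ℝ) < (s n).2 by linarith)]
    calc ((s n).2 : ℝ) * |t - T n| ≤ (s n).2 * (4 / 3 * (1 / ((s n).2 * r n))) := by gcongr
      _ = (4 / 3) / r n := by field_simp
      _ ≤ Real.exp 1 / r n := by
          gcongr
          have := Real.add_one_le_exp (1 : ℝ)
          linarith
  -- the sizes
  obtain ⟨a, ha⟩ : ∃ a : ℕ → ℝ, a = fun n => ra (s n) := ⟨_, rfl⟩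
  have ha1 : ∀ n, 1 ≤ a n := fun n => by rw [ha]; exact one_le_ra (hs1 n)
  have hrel : ∀ n, Rel (8 / (β - α)) n (s n) (s (n + 1)) := fun n =>
    ⟨r n, hr1 n, hr2 n, hr3 n, hr4 n, hr5 n, hr6 n⟩
  have hdiv : ∀ n, ((s (n + 1)).2 : ℝ) / (s n).2 = r n := by
    intro n
    have h1 := hq n
    rw [hr4]
    push_cast
    field_simp
  have hup : ∀ n, a (n + 1) ≤ Real.log (r n) + a n + 1 := by
    intro n
    have h1 := ((hrel n).size (hs1 n)).1
    rw [hdiv] at h1
    rw [ha]
    exact h1
  have hlo : ∀ n, Real.log (r n) ≤ a (n + 1) := by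
    intro n
    have h1 := ((hrel n).size (hs1 n)).2
    rw [hdiv] at h1
    rw [ha]
    exact h1
  have hpow : ∀ n, a n ^ (n + 1) ≤ Real.log (r n) := fun n => by rw [ha]; exact hr5 n
  have h4a : ∀ n, 4 * a n ≤ Real.log (r n) := fun n => by rw [ha]; exact hr6 n
  have hgrow : ∀ n : ℕ, (4 : ℝ) ^ n ≤ a n := by
    intro n
    induction n with
    | zero => rw [pow_zero]; exact ha1 0
    | succ n ih =>
      rw [pow_succ]
      have := h4a n
      have := hlo n
      linarith
  have hna : ∀ n : ℕ, (n : ℝ) + 1 ≤ a n := by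
    intro n
    refine le_trans ?_ (hgrow n)
    have h1 : n + 1 ≤ 4 ^ n := by
      induction n with
      | zero => simp
      | succ n ih =>
        rw [pow_succ]
        omega
    exact_mod_cast h1
  refine ⟨t, ?_, ?_, ?_, fun w hw => ?_⟩
  · obtain ⟨-, h1⟩ := ht 0
    rw [habs] at h1
    have h2 := hq 0
    have h3 := hr2 0
    have hba : 0 < β - α := by linarith
    rw [div_le_iff₀ hba] at h3
    have h4 : 1 / (((s 0).2 : ℝ) * r 0) ≤ (β - α) / 8 := by
      have h0 := hr 0
      rw [div_le_div_iff₀ (by positivity) (by norm_num)]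
      have h5 : (r 0 : ℝ) ≤ (s 0).2 * r 0 := by nlinarith
      nlinarith
    have h5 : T 0 = r₀ := by
      rw [hT]
      simp only
      rw [hs0]
      exact_mod_cast Rat.num_div_den r₀
    rw [h5] at h1
    have h6 := (abs_le.1 h1).1
    linarith
  · obtain ⟨-, h1⟩ := ht 0
    rw [habs] at h1
    have h2 := hq 0
    have h3 := hr2 0
    have hba : 0 < β - α := by linarith
    rw [div_le_iff₀ hba] at h3
    have h4 : 1 / (((s 0).2 : ℝ) * r 0) ≤ (β - α) / 8 := by
      have h0 := hr 0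
      rw [div_le_div_iff₀ (by positivity) (by norm_num)]
      have h5 : (r 0 : ℝ) ≤ (s 0).2 * r 0 := by nlinarith
      nlinarith
    have h5 : T 0 = r₀ := by
      rw [hT]
      simp only
      rw [hs0]
      exact_mod_cast Rat.num_div_den r₀
    rw [h5] at h1
    have h6 := (abs_le.1 h1).2
    linarith
  · apply Liouville.transcendental
    intro n
    obtain ⟨m, hm⟩ : ∃ m : ℕ, m = n + 1 := ⟨_, rfl⟩
    have hqm : 4 ≤ (s m).2 := by
      rw [hm, hr4]
      have h1 := hs1 n
      have h2 := hr1 n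
      nlinarith
    have hqm' : (4 : ℝ) ≤ (s m).2 := by exact_mod_cast hqm
    obtain ⟨h0, h1⟩ := ht m
    rw [habs] at h1
    have e1 : T m = ((s m).1 : ℝ) / (((s m).2 : ℤ) : ℝ) := by
      rw [hT, Int.cast_natCast]
    refine ⟨(s m).1, (s m).2, by exact_mod_cast (show 1 < (s m).2 by omega), ?_, ?_⟩
    · intro h2
      rw [← e1] at h2
      rw [h2, sub_self, abs_zero] at h0
      exact lt_irrefl _ h0
    · rw [← e1]
      refine lt_of_le_of_lt h1 ?_
      rw [Int.cast_natCast]
      have hlogq : Real.log (s m).2 ≤ a m := by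
        rw [ha]
        simp only
        rw [ra]
        have h3 : Real.log (s m).2 ≤ Real.log (|((s m).1 : ℝ)| + (s m).2) :=
          Real.log_le_log (by linarith) (by linarith [abs_nonneg ((s m).1 : ℝ)])
        linarith
      have h2 : (n + 1 : ℝ) * Real.log (s m).2 ≤ Real.log (r m) := by
        calc (n + 1 : ℝ) * Real.log (s m).2 ≤ a m * a m := by
              have h3 : (n + 1 : ℝ) ≤ a m := by
                have := hna m
                rw [hm] at this
                push_cast at this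
                rw [hm]
                linarith
              exact mul_le_mul h3 hlogq (Real.log_nonneg (by linarith)) (by linarith [ha1 m])
          _ = a m ^ 2 := by ring
          _ ≤ a m ^ (m + 1) := pow_le_pow_right₀ (ha1 m) (by omega)
          _ ≤ _ := hpow m
      have h3 : ((s m).2 : ℝ) ^ (n + 1) ≤ r m := by
        have h4 := Real.exp_le_exp.2 h2
        rw [Real.exp_log (by linarith [hr m])] at h4
        have h5 : Real.exp ((n + 1 : ℝ) * Real.log (s m).2) = ((s m).2 : ℝ) ^ (n + 1) := by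
          have : ((n : ℝ) + 1) = ((n + 1 : ℕ) : ℝ) := by push_cast; ring
          rw [this, Real.exp_nat_mul, Real.exp_log (by linarith)]
        rwa [h5] at h4
      have hqn : 0 < ((s m).2 : ℝ) ^ n := by positivity
      rw [pow_succ] at h3
      obtain ⟨u, hu⟩ : ∃ u : ℝ, u = ((s m).2 : ℝ) ^ n := ⟨_, rfl⟩
      rw [← hu] at h3 hqn ⊢
      have hrm : (0 : ℝ) < r m := by linarith [hr m]
      rw [mul_one_div, div_lt_div_iff₀ (by positivity) hqn, one_mul]
      have h6 : ((s m).2 : ℝ) * (u * (s m).2) ≤ (s m).2 * r m := mul_le_mul_of_nonneg_left h3 (by linarith)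
      have h7 : 16 * u ≤ (s m).2 * (u * (s m).2) := by
        have h8 : (16 : ℝ) ≤ (s m).2 * (s m).2 := by nlinarith
        nlinarith
      linarith
  · have hw1 : 0 < w - 1 := by linarith
    have hmono : ∀ n, a n ≤ a (n + 1) := fun n => by
      have := ha1 n
      have := h4a n
      have := hlo n
      linarith
    have hl : ∀ n, a (n + 1) / 2 ≤ Real.log (r n) - 1 := by
      intro n
      have := ha1 n
      have := h4a n
      have := hup n
      linarith
    refine dens_super (x := fun n => Real.log (a n))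
      (L := fun n => (Real.log (Real.log (r n) - 1) - Real.log 2 - Real.log (ra (s n))) / (w - 1))
      (F := 1 / (w - 1)) (E := 2 * Real.log 2 / (w - 1)) ?_ (by positivity)
      (div_nonneg (mul_nonneg (by norm_num) (Real.log_nonneg (by norm_num))) hw1.le)
      (fun n => Real.log_nonneg (ha1 n)) (fun n => Real.log_le_log (by linarith [ha1 n]) (hmono n)) ?_ ?_ ?_ ?_
    · rw [div_le_one hw1]
      linarith
    · intro n
      have h1 := (hpow n).trans (hlo n)
      have h2 := Real.log_le_log (pow_pos (by linarith [ha1 n]) _) h1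
      rw [Real.log_pow] at h2
      push_cast at h2
      exact h2
    · have h1 : Tendsto (fun n : ℕ => (n : ℝ) * Real.log 4) atTop atTop :=
        tendsto_natCast_atTop_atTop.atTop_mul_const (Real.log_pos (by norm_num))
      refine tendsto_atTop_mono (fun n => ?_) h1
      rw [← Real.log_pow]
      exact Real.log_le_log (by positivity) (hgrow n)
    · intro n
      have h1 := hl n
      have h2 := ha1 (n + 1)
      have h3 := Real.log_le_log (by linarith) h1
      rw [Real.log_div (by linarith) (by norm_num)] at h3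
      have h4 : ra (s n) = a n := by rw [ha]
      rw [h4]
      have e1 : 1 / (w - 1) * Real.log (a (n + 1)) - 1 / (w - 1) * Real.log (a n) - 2 * Real.log 2 / (w - 1) =
          (Real.log (a (n + 1)) - Real.log (a n) - 2 * Real.log 2) / (w - 1) := by
        field_simp
      rw [e1]
      apply div_le_div_of_nonneg_right _ hw1.le
      linarith
    · intro n y h1 h2
      have h3 : ra (s n) = a n := by rw [ha]
      refine mem_scales (hs1 n) (l := Real.log (r n) - 1) ?_ (by linarith) (hlin n) ?_ h2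
      · have := hl n
        have := ha1 (n + 1)
        linarith
      · rw [h3]
        exact h1

end Pool.Agent.H595.GT
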