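import Pool.Agent.H595.Gel.Gel1
import Pool.Agent.H595.Dens.AlgX

/-!
# Integer polynomials of all degrees with small values at a point
-/

set_option autoImplicit false

namespace Pool.Agent.H595.GT

open Polynomial MeasureTheory Filter Topology Set Pool.Agent.H595.Dens Pool.Agent.R523.Gel Pool.Agent.H595.Alg

/-- the Mahler measure -/
noncomputable def M1 (P : ℤ[X]) : ℝ := (P.map (Int.castRingHom ℂ)).mahlerMeasure

theorem M1_mul (P Q : ℤ[X]) : M1 (P * Q) = M1 P * M1 Q := by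
  rw [M1, Polynomial.map_mul, mahlerMeasure_mul, M1, M1]

theorem one_le_M1 {P : ℤ[X]} (hP : P ≠ 0) : 1 ≤ M1 P := one_le_mahlerMeasure_of_ne_zero hP

/-- the size -/
noncomputable def size (P : ℤ[X]) : ℝ := P.natDegree + Real.log (M1 P)

theorem size_mul {P Q : ℤ[X]} (hP : P ≠ 0) (hQ : Q ≠ 0) : size (P * Q) = size P + size Q := by
  have h1 := one_le_M1 hP
  have h2 := one_le_M1 hQ
  rw [size, size, size, M1_mul, natDegree_mul hP hQ, Real.log_mul (by linarith) (by linarith)]
  push_cast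
  ring

theorem natDegree_le_size {P : ℤ[X]} (hP : P ≠ 0) : (P.natDegree : ℝ) ≤ size P := by
  rw [size]
  linarith [Real.log_nonneg (one_le_M1 hP)]

theorem size_nonneg {P : ℤ[X]} (hP : P ≠ 0) : 0 ≤ size P :=
  (Nat.cast_nonneg _).trans (natDegree_le_size hP)

theorem logM1_le_size {P : ℤ[X]} : Real.log (M1 P) ≤ size P := by
  rw [size]
  linarith [(Nat.cast_nonneg P.natDegree : (0 : ℝ) ≤ P.natDegree)]

theorem norm_coeff_map (P : ℤ[X]) (i : ℕ) : ‖(P.map (Int.castRingHom ℂ)).coeff i‖ = |(P.coeff i : ℝ)| := by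
  rw [coeff_map, eq_intCast, Complex.norm_intCast]

/-- the Mahler measure and the coefficients -/
theorem M1_le (P : ℤ[X]) {H : ℝ} (hH : ∀ i, |(P.coeff i : ℝ)| ≤ H) : M1 P ≤ (P.natDegree + 1) * H := by
  refine (mahlerMeasure_le_sum_norm_coeff _).trans ?_
  rw [Polynomial.sum_over_range' _ (by simp) (P.natDegree + 1) (by
    have := natDegree_map_le (p := P) (f := Int.castRingHom ℂ)
    omega)]
  calc ∑ i ∈ Finset.range (P.natDegree + 1), ‖(P.map (Int.castRingHom ℂ)).coeff i‖ ≤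
        ∑ _i ∈ Finset.range (P.natDegree + 1), H := by
        apply Finset.sum_le_sum
        intro i _
        rw [norm_coeff_map]
        exact hH i
    _ = _ := by
        rw [Finset.sum_const, Finset.card_range, nsmul_eq_mul]
        push_cast
        ring

theorem hgt_le_M1 (P : ℤ[X]) : (hgt P : ℝ) ≤ 2 ^ P.natDegree * M1 P := by
  have h0 : 0 ≤ M1 P := mahlerMeasure_nonneg _
  apply hgt_le (by positivity)
  intro i
  rw [← norm_coeff_map]
  refine (norm_coeff_le_choose_mul_mahlerMeasure i _).trans ?_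
  have h1 : ((P.map (Int.castRingHom ℂ)).natDegree.choose i : ℝ) ≤ 2 ^ P.natDegree := by
    have h2 : (P.map (Int.castRingHom ℂ)).natDegree = P.natDegree :=
      natDegree_map_eq_of_injective (Int.castRingHom ℂ).injective_int P
    rw [h2]
    exact_mod_cast Nat.choose_le_two_pow _ _
  rw [M1]
  gcongr

theorem log_hgt_le {P : ℤ[X]} (hP : P ≠ 0) : Real.log (hgt P) ≤ size P := by
  have h1 : (1 : ℝ) ≤ hgt P := by exact_mod_cast one_le_hgt hP
  have h2 := one_le_M1 hP
  have h3 := Real.log_le_log (by linarith) (hgt_le_M1 P)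
  rw [Real.log_mul (by positivity) (by linarith), Real.log_pow] at h3
  have h4 : Real.log 2 ≤ 1 := by
    have := Real.log_two_lt_d9
    linarith
  rw [size]
  have h5 : (0 : ℝ) ≤ P.natDegree := Nat.cast_nonneg _
  nlinarith

/-- **Multiplicativity.** -/
theorem value_ge (θ : ℂ) {lam : ℝ} (hl : 0 ≤ lam) (F : ℤ[X]) : F ≠ 0 →
    (∀ Q, Irreducible Q → Q ∣ F → 0 < Q.natDegree → Real.exp (-(lam * size Q)) ≤ ‖aeval θ Q‖) →
      Real.exp (-(lam * size F)) ≤ ‖aeval θ F‖ := by
  have hconst : ∀ F : ℤ[X], F ≠ 0 → F.natDegree = 0 → Real.exp (-(lam * size F)) ≤ ‖aeval θ F‖ := by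
    intro F hF h0
    obtain ⟨a, ha⟩ := natDegree_eq_zero.1 h0
    have ha0 : a ≠ 0 := by
      rintro rfl
      exact hF (by rw [← ha, C_0])
    have h1 : Real.exp (-(lam * size F)) ≤ 1 := by
      rw [Real.exp_le_one_iff]
      have := mul_nonneg hl (size_nonneg hF)
      linarith
    refine h1.trans ?_
    rw [← ha, aeval_C]
    have h2 : (algebraMap ℤ ℂ) a = (a : ℂ) := rfl
    rw [h2, Complex.norm_intCast]
    exact_mod_cast Int.one_le_abs ha0
  induction F using WfDvdMonoid.induction_on_irreducible with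
  | zero => intro h; exact absurd rfl h
  | unit u hu =>
    intro h0 _
    exact hconst u h0 (natDegree_eq_zero_of_isUnit hu)
  | mul a i ha hi ih =>
    intro h0 h
    have ih' := ih ha (fun Q hQ hQa => h Q hQ (hQa.mul_left i))
    have h3 : Real.exp (-(lam * size i)) ≤ ‖aeval θ i‖ := by
      by_cases hc : 0 < i.natDegree
      · exact h i hi (dvd_mul_right i a) hc
      · exact hconst i hi.ne_zero (by omega)
    rw [map_mul, norm_mul, size_mul hi.ne_zero ha]
    calc Real.exp (-(lam * (size i + size a))) = Real.exp (-(lam * size i)) * Real.exp (-(lam * size a)) := by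
          rw [← Real.exp_add]
          congr 1
          ring
      _ ≤ _ := mul_le_mul h3 ih' (Real.exp_pos _).le (norm_nonneg _)

/-- the resultant of two irreducible polynomials -/
theorem res_ne {P Q : ℤ[X]} (hP : Irreducible P) (hQ : Irreducible Q) (hP0 : 0 < P.natDegree)
    (hQ0 : 0 < Q.natDegree) (hnd : ¬ Associated P Q) : resultant P Q P.natDegree Q.natDegree ≠ 0 := by
  have hinj : Function.Injective (Int.castRingHom ℚ) := (Int.castRingHom ℚ).injective_int
  have hQp : Q.IsPrimitive := hQ.isPrimitive hQ0.ne'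
  have hQ' : Irreducible (Q.map (Int.castRingHom ℚ)) :=
    (IsPrimitive.Int.irreducible_iff_irreducible_map_cast hQp).1 hQ
  have hcop : IsCoprime (P.map (Int.castRingHom ℚ)) (Q.map (Int.castRingHom ℚ)) := by
    refine ((hQ'.coprime_iff_not_dvd).2 fun hdvd => hnd ?_).symm
    have h1 : Q ∣ P := (IsPrimitive.Int.dvd_iff_map_cast_dvd_map_cast Q P hQp).2 hdvd
    exact (hP.dvd_iff.1 h1).resolve_left hQ.not_isUnit
  have h2 := resultant_ne_zero _ _ hcop
  rw [natDegree_map_eq_of_injective hinj, natDegree_map_eq_of_injective hinj, resultant_map_map] at h2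
  intro h0
  exact h2 (by rw [h0, map_zero])

theorem not_assoc {P Q : ℤ[X]} (h : size P ≠ size Q) (hP : P ≠ 0) : ¬ Associated P Q := by
  rintro ⟨u, hu⟩
  apply h
  have h1 : size (u : ℤ[X]) = 0 := by
    have h2 : ((u : ℤ[X]) * ((u⁻¹ : ℤ[X]ˣ) : ℤ[X])) = 1 := u.mul_inv
    have h3 := size_mul (P := (u : ℤ[X])) (Q := ((u⁻¹ : ℤ[X]ˣ) : ℤ[X])) u.ne_zero (u⁻¹).ne_zero
    rw [h2] at h3
    have h4 : size (1 : ℤ[X]) = 0 := by
      rw [size, M1, Polynomial.map_one, mahlerMeasure_one, Real.log_one, natDegree_one]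
      simp
    rw [h4] at h3
    have h5 := size_nonneg (P := (u : ℤ[X])) u.ne_zero
    have h6 := size_nonneg (P := ((u⁻¹ : ℤ[X]ˣ) : ℤ[X])) (u⁻¹).ne_zero
    linarith
  rw [← hu, size_mul hP u.ne_zero, h1, add_zero]

/-- **Two irreducible polynomials.** -/
theorem two (θ : ℂ) : ∃ C : ℝ, 1 ≤ C ∧ ∀ P Q : ℤ[X], Irreducible P → Irreducible Q → 0 < P.natDegree →
    0 < Q.natDegree → size P ≠ size Q → ∀ ε : ℝ, 0 < ε → ‖aeval θ P‖ ≤ ε → ‖aeval θ Q‖ ≤ ε →
      -Real.log ε ≤ C * (size P * size Q) * (1 + Real.log (size P + size Q)) := by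
  obtain ⟨T, hT⟩ : ∃ T : ℝ, T = 1 + ‖θ‖ := ⟨_, rfl⟩
  have hθ0 := norm_nonneg θ
  have hT1 : 1 ≤ T := by rw [hT]; linarith
  have hlT : 0 ≤ Real.log T := Real.log_nonneg hT1
  refine ⟨2 * (2 + Real.log T) + 2, by linarith, ?_⟩
  intro P Q hP hQ hP0 hQ0 hne ε hε hPε hQε
  obtain ⟨m, hm⟩ : ∃ m : ℕ, m = P.natDegree := ⟨_, rfl⟩
  obtain ⟨n, hn⟩ : ∃ n : ℕ, n = Q.natDegree := ⟨_, rfl⟩
  obtain ⟨F, hF⟩ : ∃ F : ℝ, F = hgt P := ⟨_, rfl⟩
  obtain ⟨G, hG⟩ : ∃ G : ℝ, G = hgt Q := ⟨_, rfl⟩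
  have hF1 : 1 ≤ F := by rw [hF]; exact_mod_cast one_le_hgt hP.ne_zero
  have hG1 : 1 ≤ G := by rw [hG]; exact_mod_cast one_le_hgt hQ.ne_zero
  have hR := res_ne hP hQ hP0 hQ0 (not_assoc hne hP.ne_zero)
  have hval : ‖resultant (P.map (Int.castRingHom ℂ)) (Q.map (Int.castRingHom ℂ)) m n‖ =
      |((resultant P Q m n : ℤ) : ℝ)| := by
    rw [resultant_map_map, eq_intCast, Complex.norm_intCast]
  have hR1 : (1 : ℝ) ≤ |((resultant P Q m n : ℤ) : ℝ)| := by
    rw [hm, hn]
    exact_mod_cast Int.one_le_abs hR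
  have hev : ∀ A : ℤ[X], (A.map (Int.castRingHom ℂ)).eval θ = aeval θ A := by
    intro A
    rw [eval_map, aeval_def]
    rfl
  have h1 := Gel.res_scaled m n (by omega) (B := 1) (T := T) le_rfl hT1 (P.map (Int.castRingHom ℂ))
    (Q.map (Int.castRingHom ℂ)) (by rw [hm]; exact natDegree_map_le) (by rw [hn]; exact natDegree_map_le)
    (F := F) (G := G) (by linarith) (by linarith)
    (fun i => by rw [norm_coeff_map, one_mul, hF]; exact coeff_le_hgt P i)
    (fun i => by rw [norm_coeff_map, one_mul, hG]; exact coeff_le_hgt Q i) (t := θ) (by rw [hT]; linarith)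
    (ε := ε) (by rw [hev]; nlinarith) (by rw [hev]; nlinarith)
  rw [hval, one_pow, mul_one] at h1
  have h2 := hR1.trans h1
  have hmn : (1 : ℝ) ≤ (m : ℝ) + n := by
    have : 1 ≤ m + n := by omega
    exact_mod_cast this
  have hfac : (1 : ℝ) ≤ ((m + n).factorial : ℝ) := by
    exact_mod_cast Nat.one_le_iff_ne_zero.2 (Nat.factorial_ne_zero _)
  have h3 := Real.log_le_log one_pos h2
  rw [Real.log_one, Real.log_mul (by positivity) (by positivity), Real.log_mul (by positivity) (by positivity),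
    Real.log_mul (by positivity) (by positivity), Real.log_mul (by positivity) hε.ne',
    Real.log_mul (by positivity) (by positivity), Real.log_pow, Real.log_pow, Real.log_pow] at h3
  have h4 : Real.log ((m + n).factorial : ℝ) ≤ (m + n) * Real.log (m + n) := by
    have h5 : ((m + n).factorial : ℝ) ≤ ((m : ℝ) + n) ^ (m + n) := by exact_mod_cast Nat.factorial_le_pow _
    have h6 := Real.log_le_log (by linarith) h5
    rw [Real.log_pow] at h6
    push_cast at h6
    exact h6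
  obtain ⟨a, ha⟩ : ∃ a : ℝ, a = size P := ⟨_, rfl⟩
  obtain ⟨b, hb⟩ : ∃ b : ℝ, b = size Q := ⟨_, rfl⟩
  have hma : (m : ℝ) ≤ a := by rw [hm, ha]; exact natDegree_le_size hP.ne_zero
  have hnb : (n : ℝ) ≤ b := by rw [hn, hb]; exact natDegree_le_size hQ.ne_zero
  have hm1 : (1 : ℝ) ≤ m := by
    have : 1 ≤ m := by omega
    exact_mod_cast this
  have hn1 : (1 : ℝ) ≤ n := by
    have : 1 ≤ n := by omega
    exact_mod_cast this
  have hFa : Real.log F ≤ a := by rw [hF, ha]; exact log_hgt_le hP.ne_zero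
  have hGb : Real.log G ≤ b := by rw [hG, hb]; exact log_hgt_le hQ.ne_zero
  have hF0 : 0 ≤ Real.log F := Real.log_nonneg hF1
  have hG0 : 0 ≤ Real.log G := Real.log_nonneg hG1
  rw [← ha, ← hb]
  obtain ⟨l, hl⟩ : ∃ l : ℝ, l = Real.log (a + b) := ⟨_, rfl⟩
  have hl0 : 0 ≤ l := by rw [hl]; exact Real.log_nonneg (by linarith)
  have hlmn : Real.log ((m : ℝ) + n) ≤ l := by
    rw [hl]
    exact Real.log_le_log (by linarith) (by linarith)
  have hlmn0 : 0 ≤ Real.log ((m : ℝ) + n) := Real.log_nonneg hmn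
  rw [← hl]
  -- the estimate
  have hab : a + b ≤ 2 * (a * b) := by nlinarith
  have hab1 : 1 ≤ a * b := by nlinarith
  have e1 : (n : ℝ) * Real.log F ≤ a * b := by nlinarith
  have e2 : (m : ℝ) * Real.log G ≤ a * b := by nlinarith
  have e3 : ((m : ℝ) + n) * Real.log (m + n) ≤ 2 * (a * b) * l := by
    calc ((m : ℝ) + n) * Real.log (m + n) ≤ (a + b) * l := mul_le_mul (by linarith) hlmn hlmn0 (by linarith)
      _ ≤ _ := mul_le_mul_of_nonneg_right hab hl0
  have e4 : Real.log ((m : ℝ) + n) ≤ 2 * (a * b) * l := by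
    calc Real.log ((m : ℝ) + n) ≤ 1 * l := by linarith
      _ ≤ _ := mul_le_mul_of_nonneg_right (by linarith) hl0
  have e5 : ((m : ℝ) + n) * Real.log T ≤ 2 * (a * b) * Real.log T :=
    mul_le_mul_of_nonneg_right (by linarith) hlT
  push_cast at h3
  have e6 : 0 ≤ (a * b) * l * Real.log T := by positivity
  have e7 : 0 ≤ (a * b) * l := by positivity
  have e8 : 0 ≤ (a * b) * Real.log T := by positivity
  nlinarith

end Pool.Agent.H595.GT
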